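import Pool.Agent.E8helper49.LV.Equiv

/-!
# Montgomery's large value conjecture as a discrepancy bound, and in any number of variables

For every fixed `A ≥ 1` the large value conjecture for `T ≤ N^A` is equivalent to

* the same for coefficients `0` and `1`, that is for sums of `n^{it}` over sets of integers;
* the statement that the matrices `(n^{it})`, `t ∈ W`, `N ≤ n ≤ 2N`, `W` any set of at most `N`
  integers of `[0, N^A]`, have up to `N^ε` the cut norm of a random matrix of the same size: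
  `|∑_{t ∈ W} ∑_{n ∈ S} n^{it}| ≤ C N^{1+ε} |W|^{1/2}` for all `W` and all `S ⊆ [N, 2N]`
  (all `b_n` and all level sets have disappeared from this form);
* the mean square inequality in any number `k` of independent variables, with arbitrary bounded
  coefficients `b(n_1, …, n_k)` (not products of functions of one variable), which may even have
  values in the unit ball of any Hilbert space.
-/

set_option autoImplicit false

open Finset

namespace Pool.Agent.Results.MP_ecd12e_nt.DiscrepancyAndGridsH49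

/-- `n^{it}` -/
noncomputable def nit (t : ℤ) (n : ℕ) : ℂ :=
  Complex.exp ((((t : ℝ) * Real.log (n : ℝ) : ℝ) : ℂ) * Complex.I)

/-- The assertion of Q1 for a fixed `A`, for the coefficient sequences in the class `P`. -/
def LargeValues (A : ℝ) (P : (ℕ → ℂ) → Prop) : Prop :=
  ∀ σ : ℝ, σ > 1/2 → ∀ ε : ℝ, ε > 0 → ∃ C : ℝ,
    ∀ N : ℕ, 1 ≤ N → ∀ T : ℝ, (N:ℝ) ≤ T → T ≤ (N:ℝ) ^ A →
    ∀ b : ℕ → ℂ, P b →
    ∀ W : Finset ℤ,
      (∀ t ∈ W, 0 ≤ (t:ℝ) ∧ (t:ℝ) ≤ T ∧
        (N:ℝ) ^ σ < ‖∑ n ∈ Finset.Icc N (2 * N),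
            b n * Complex.exp ((((t:ℝ) * Real.log (n:ℝ) : ℝ) : ℂ) * Complex.I)‖) →
      (W.card : ℝ) ≤ C * (N:ℝ) ^ (2 - 2 * σ + ε)

/-- `W` is a set of integers of `[0, N^A]`. -/
def Pts (A : ℝ) (N : ℕ) (W : Finset ℤ) : Prop := ∀ t ∈ W, 0 ≤ (t:ℝ) ∧ (t:ℝ) ≤ (N:ℝ) ^ A

/-- Discrepancy: for at most `N` points, every rectangle `W × S` has a sum of the size it would have
for a random matrix, up to `N^ε`. -/
def Discrepancy (A : ℝ) : Prop :=
  ∀ ε : ℝ, ε > 0 → ∃ C : ℝ, ∀ N : ℕ, 1 ≤ N → ∀ W : Finset ℤ, Pts A N W → W.card ≤ N →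
    ∀ S ⊆ Icc N (2 * N),
      ‖∑ t ∈ W, ∑ n ∈ S, nit t n‖ ≤ C * (N:ℝ) ^ (1 + ε) * √(W.card : ℝ)

/-- The mean square inequality in `k` variables, for every `k`: for all sets `W_i` of integers of
`[0, N_i^A]` and all functions `b(n_1, …, n_k)` with values in the unit ball of a Hilbert space `H`,
`∑_{t ∈ W_1 × … × W_k} |∑_{n_i ∈ [N_i, 2N_i]} b(n_1, …, n_k) n_1^{i t_1} ⋯ n_k^{i t_k}|²` is at most
`C ∏_i N_i^ε (N_i² + N_i |W_i|)`, with `C = C(A, k, ε)`. -/
def ManyVariables (A : ℝ) : Prop :=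
  ∀ (k : ℕ) (ε : ℝ), ε > 0 → ∃ C : ℝ, ∀ (H : Type) [NormedAddCommGroup H]
    [InnerProductSpace ℂ H] (N : Fin k → ℕ) (W : Fin k → Finset ℤ), (∀ i, 1 ≤ N i) →
    (∀ i, Pts A (N i) (W i)) → ∀ b : (Fin k → ℕ) → H, (∀ n, ‖b n‖ ≤ 1) →
    ∑ t ∈ Fintype.piFinset W, ‖∑ n ∈ Fintype.piFinset (fun i => Icc (N i) (2 * N i)),
        (∏ i, nit (t i) (n i)) • b n‖ ^ 2 ≤
      C * ∏ i, ((N i : ℝ) ^ ε * ((N i : ℝ) ^ 2 + N i * (W i).card))

/-- For every `A ≥ 1`: the large value conjecture for `T ≤ N^A`, the same for coefficients `0, 1`,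
the discrepancy bound and the inequality in many variables are equivalent. -/
theorem result (A : ℝ) (hA : 1 ≤ A) : List.TFAE [
    LargeValues A (fun b => ∀ n, ‖b n‖ ≤ 1),
    LargeValues A (fun b => ∀ n, b n = 0 ∨ b n = 1),
    Discrepancy A,
    ManyVariables A] :=
  Pool.Agent.E8helper49.LV.tfae A hA

end Pool.Agent.Results.MP_ecd12e_nt.DiscrepancyAndGridsH49
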