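import Pool.Agent.E8helper70.Mon.Final

/-! # Montgomery's large value conjecture: the excess over the conjectured bound is monotone in `σ`

Fix `A`. If `|W| ≤ C N^{φ+ε}` for the sets `W` on which some `|D| > N^σ`, then
`|W| ≤ C N^{φ-2κ+ε}` for the sets on which some `|D| > N^{σ+κ}`; and for this it suffices to know
the former bound for the sets `W` with additive energy at most `N^ε (|W|³ N^{-2κ} + |W|⁴ / T)`.
So the conjecture (for this `A`) holds iff there are at most `C N^{1+ε}` points with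
`|D| > N^{1/2+η}`, for all `η, ε > 0`.

Proof: a random signed superposition `b_n ∑_j ±n^{-i s_j} / √J` of `J = N^{2κ}` random translates of
the given Dirichlet polynomial; flipping one sign shows that it is large at half of the points
`t + s_j` at least, which are mostly different by the mean value theorem, and have small energy. -/

open Finset

namespace Pool.Agent.Results.MP_ecd12e_nt.MonotoneExcessH70

/-- `n^{it}` -/
noncomputable def nt (t : ℤ) (n : ℕ) : ℂ :=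
  Complex.exp ((((t : ℝ) * Real.log (n : ℝ) : ℝ) : ℂ) * Complex.I)

/-- the Dirichlet polynomial `D(t) = ∑_{N ≤ n ≤ 2N} b_n n^{it}` -/
noncomputable def D (N : ℕ) (b : ℕ → ℂ) (t : ℤ) : ℂ := ∑ n ∈ Icc N (2 * N), b n * nt t n

/-- `|W| ≤ C N^{φ+ε}` for all the sets `W` of Q1, for given `A` and `σ`: the assertion of Q1 for
given `A`, `σ` is `LargeValues A σ (2 - 2 * σ)` -/
def LargeValues (A σ φ : ℝ) : Prop := ∀ ε : ℝ, 0 < ε → ∃ C : ℝ, ∀ N : ℕ, 1 ≤ N → ∀ T : ℝ,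
  (N : ℝ) ≤ T → T ≤ (N : ℝ) ^ A → ∀ b : ℕ → ℂ, (∀ n, ‖b n‖ ≤ 1) → ∀ W : Finset ℤ,
    (∀ t ∈ W, 0 ≤ (t : ℝ) ∧ (t : ℝ) ≤ T ∧ (N : ℝ) ^ σ < ‖D N b t‖) →
      (W.card : ℝ) ≤ C * (N : ℝ) ^ (φ + ε)

/-- the same for the sets `W` whose additive energy (the number of the solutions of
`a + b = a' + b'` in `W`) is at most `N^ε (|W|³ N^{-2κ} + |W|⁴ / T)` -/
def SmallEnergy (A σ φ κ : ℝ) : Prop := ∀ ε : ℝ, 0 < ε → ∃ C : ℝ, ∀ N : ℕ, 1 ≤ N → ∀ T : ℝ,
  (N : ℝ) ≤ T → T ≤ (N : ℝ) ^ A → ∀ b : ℕ → ℂ, (∀ n, ‖b n‖ ≤ 1) → ∀ W : Finset ℤ,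
    (∀ t ∈ W, 0 ≤ (t : ℝ) ∧ (t : ℝ) ≤ T ∧ (N : ℝ) ^ σ < ‖D N b t‖) →
    (Finset.addEnergy W W : ℝ) ≤
      (N : ℝ) ^ ε * ((W.card : ℝ) ^ 3 * (N : ℝ) ^ (-(2 * κ)) + (W.card : ℝ) ^ 4 / T) →
      (W.card : ℝ) ≤ C * (N : ℝ) ^ (φ + ε)

/-- **Monotonicity of the excess, and the critical form of the conjecture.** For all `A`: a bound
for the sets of small energy at the level `σ > 1/2` implies the bound smaller by `N^{2κ}` for all
sets at the level `σ + κ`; and the conjecture for `A` is equivalent to `|W| ≤ C N^{1+ε}` at all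
levels `σ > 1/2`. -/
theorem result (A : ℝ) :
    (∀ σ φ κ : ℝ, 1 / 2 < σ → 0 ≤ κ → SmallEnergy A σ φ κ → LargeValues A (σ + κ) (φ - 2 * κ)) ∧
    ((∀ σ : ℝ, 1 / 2 < σ → LargeValues A σ (2 - 2 * σ)) ↔
      ∀ σ : ℝ, 1 / 2 < σ → LargeValues A σ 1) :=
  ⟨fun σ φ κ hσ hκ h => E8helper70.Mon.main A σ φ κ hσ hκ h, E8helper70.Mon.critical A⟩

end Pool.Agent.Results.MP_ecd12e_nt.MonotoneExcessH70
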