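import Pool.Agent.E8helper19.RP.Neg

set_option autoImplicit false

/-!
# Montgomery's large value conjecture for perturbed integers

The frequencies `log m`, `N ≤ m ≤ 2N`, of the Dirichlet polynomials of the problem are replaced by
`log m + v_m` with `0 ≤ v_m ≤ η ≤ 1/(3N)`, that is the integers `m` by real numbers
`m e^{v_m} ∈ [m, m + 1)`.

(A) For ALMOST ALL perturbations `v`, the large sieve inequality of the quality of Montgomery's
conjecture holds, in the `ℓ²` form, for ALL coefficients and ALL sets `W` of integers `|t| ≤ T`: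
`∑_{t ∈ W} |D_v(t)|² ≤ C L⁴ (1/η + |W|) ∑ |b_m|²`, `L = 1 + log (N T / δ)`, outside a set of `v` of
relative measure `δ`. (For the integers themselves, `v = 0`, this is false by Bourgain.) The constant
`C` is absolute, so that `T` may even be `exp (N^ε)`. For perturbations of any size `η ≤ 1` the
problem is reduced to the integers on intervals of length `1/η`; with the inequality of Halász and
Montgomery on these: if `N^{-2} ≤ η`, `|b_m| ≤ 1` and `|D_v| ≥ V` on `W`, `V² ≥ C L³ N η^{-1/2}`, then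
`|W| ≤ C L² N² / V²`.

(B) In particular Q1 holds for almost all perturbations: for `η = 1/(3N)`, and all `T ≤ N^A`,
`|b_m| ≤ 1`, `σ > 1/2` and `|D_v| > N^σ` on `W ⊂ [-T, T]`: `|W| ≤ C N^(2-2σ+ε)`. For `η = N^{-1-κ}`:
`|W| ≤ C N^(2-2σ+κ+ε)`.

(C) Q1 is FALSE for some perturbations of every size `η`, with `b_m = 1`: `D_v` has `R` values
`N + 1` at integers `t ≤ R (2π/η + 1)`. So for every fixed `A > 1` Q1 with `T ≤ N^A` holds for almost
all perturbations of size `1/(3N)`, but not for all of them.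

Proof of (A): the function `f(x) = ∑_{t ∈ W} β_t x^{it}` is approximated uniformly in `x` by sums over
few elements of `W` (method of Maurey); a union bound over these gives
`∑_m |f(m e^{v_m})|² ≤ C (L · mean + L³ |W|² + N)`, `mean` the mean over all `v`. The mean is estimated
by Parseval's formula (the intervals `[log m, log m + η]` are disjoint and the `t` are integers), by
the kernel `∑ m^{it}`, or by separation of variables on the intervals of length `1/η`.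
-/

namespace Pool.Agent.Results.MP_ecd12e_nt.RandomPerturbationsH19

open Finset MeasureTheory

/-- `D_v(t) = ∑_{N ≤ m ≤ 2N} b_m e^{i t (log m + v_m)}`, where `m = N + n`, `n = 0, …, N`. -/
noncomputable def D (N : ℕ) (v : Fin (N + 1) → ℝ) (b : Fin (N + 1) → ℂ) (t : ℝ) : ℂ :=
  ∑ n : Fin (N + 1),
    b n * Complex.exp (Complex.I * (t : ℂ) * ((Real.log ((N : ℝ) + (n : ℕ)) + v n : ℝ) : ℂ))

/-- The properties of a good perturbation `v` of size `η`, for ALL coefficients `b` and all sets `W`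
of integers `|t| ≤ T`; `G = ∑ |b_m|²`.
(1) if `η ≤ 1/(3N)`: `∑_{t ∈ W} |D_v(t)|² ≤ C L⁴ (1/η + |W|) G`;
and if `|D_v| ≥ V` on `W`:
(2) if `η ≤ 1/(3N)`: `V² ≤ C L³ G` or `|W| ≤ C L G / (η V²)`;
(3) if `η ≥ N^{-2}`: `V² ≤ C L³ G η^{-1/2}` or `|W| ≤ C L² N G / V²`;
(4) `V² |W|² ≤ C G (L ∑_J Φ_J + L³ |W|² + N)` if, for the points of `W` in the interval
`[J/η, (J+1)/η)` and the INTEGERS `m`, `∑_m |∑_t a_t m^{it}|² ≤ Φ_J` for all `|a_t| ≤ 1`; the sum is
over the `J` whose interval meets `W`. -/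
def Good (N T : ℕ) (η C L : ℝ) (v : Fin (N + 1) → ℝ) : Prop :=
  ∀ (W : Finset ℤ) (b : Fin (N + 1) → ℂ), (∀ t ∈ W, |t| ≤ T) →
    (η ≤ 1 / (3 * N) → ∑ t ∈ W, ‖D N v b (t : ℝ)‖ ^ 2 ≤
      C * L ^ 4 * (1 / η + W.card) * ∑ n, ‖b n‖ ^ 2) ∧
    ∀ V : ℝ, 0 < V → (∀ t ∈ W, V ≤ ‖D N v b (t : ℝ)‖) →
      (η ≤ 1 / (3 * N) → V ^ 2 ≤ C * L ^ 3 * ∑ n, ‖b n‖ ^ 2 ∨
        (W.card : ℝ) ≤ C * L * (∑ n, ‖b n‖ ^ 2) / (η * V ^ 2)) ∧
      (1 / (N : ℝ) ^ 2 ≤ η → V ^ 2 ≤ C * L ^ 3 * (∑ n, ‖b n‖ ^ 2) * Real.sqrt (1 / η) ∨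
        (W.card : ℝ) ≤ C * L ^ 2 * N * (∑ n, ‖b n‖ ^ 2) / V ^ 2) ∧
      (∀ Φ : ℤ → ℝ, (∀ (J : ℤ) (a : ℤ → ℂ), (∀ t, ‖a t‖ ≤ 1) →
          ∑ m ∈ Icc N (2 * N), ‖∑ t ∈ W.filter (fun t : ℤ => ⌊η * (t : ℝ)⌋ = J),
            a t * Complex.exp (Complex.I * (t : ℂ) * (Real.log (m : ℝ) : ℂ))‖ ^ 2 ≤ Φ J) →
        V ^ 2 * (W.card : ℝ) ^ 2 ≤ C * (∑ n, ‖b n‖ ^ 2) *
          (L * ∑ J ∈ W.image (fun t : ℤ => ⌊η * (t : ℝ)⌋), Φ J + L ^ 3 * (W.card : ℝ) ^ 2 + N))

/-- (A) All perturbations in `[0,η]^(N+1)` outside a set of relative measure `δ` are good, with an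
absolute constant and `L = 1 + log (N T / δ)`.
(B) Q1 for almost all perturbations: for all `A`, `B` there is a constant depending on `σ`, `ε` (and
`A`, `B`) such that for `0 < η ≤ 1/(3N)` and all perturbations outside a set of relative measure
`N^{-B}`: for ALL `|b_m| ≤ 1`, all `σ > 1/2`, `ε > 0` and ALL sets `W` of integers `|t| ≤ N^A` with
`|D_v| > N^σ` on `W`: `|W| ≤ C(σ,ε) N^(1-2σ+ε) / η`. (For `η = 1/(3N)` this is `3 C(σ,ε) N^(2-2σ+ε)`.)
(C) For every `N` and `η > 0` there is a perturbation in `[0,η]^(N+1)` such that for `b_m = 1` and for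
every `R` there are `R` integers `t ∈ [0, R (2π/η + 1)]` with `D_v(t) = N + 1`. -/
theorem result :
    (∃ C : ℝ, 0 < C ∧ ∀ (N T : ℕ) (δ η : ℝ), 1 ≤ N → 1 ≤ T → 0 < δ → δ ≤ 1 → 0 < η → η ≤ 1 →
      ∃ E : Set (Fin (N + 1) → ℝ), MeasurableSet E ∧
        volume E ≤ ENNReal.ofReal (δ * η ^ (N + 1)) ∧
        ∀ v : Fin (N + 1) → ℝ, (∀ n, 0 ≤ v n ∧ v n ≤ η) → v ∉ E →
          Good N T η C (1 + Real.log (N * T / δ)) v) ∧
    (∀ A B : ℝ, 0 ≤ A → 0 ≤ B → ∃ C : ℝ → ℝ → ℝ, ∀ (N : ℕ) (η : ℝ), 1 ≤ N → 0 < η →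
      η ≤ 1 / (3 * N) →
      ∃ E : Set (Fin (N + 1) → ℝ), MeasurableSet E ∧
        volume E ≤ ENNReal.ofReal ((N : ℝ) ^ (-B) * η ^ (N + 1)) ∧
        ∀ v : Fin (N + 1) → ℝ, (∀ n, 0 ≤ v n ∧ v n ≤ η) → v ∉ E →
          ∀ (W : Finset ℤ) (b : Fin (N + 1) → ℂ) (σ ε : ℝ), 1 / 2 < σ → 0 < ε →
            (∀ n, ‖b n‖ ≤ 1) → (∀ t ∈ W, |(t : ℝ)| ≤ (N : ℝ) ^ A) →
            (∀ t ∈ W, (N : ℝ) ^ σ < ‖D N v b (t : ℝ)‖) →
            (W.card : ℝ) ≤ C σ ε * (N : ℝ) ^ (1 - 2 * σ + ε) / η) ∧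
    (∀ (N : ℕ) (η : ℝ), 0 < η → ∃ v : Fin (N + 1) → ℝ, (∀ n, 0 ≤ v n ∧ v n ≤ η) ∧
      ∀ R : ℕ, ∃ W : Finset ℤ, W.card = R ∧
        (∀ t ∈ W, (0 : ℝ) ≤ t ∧ (t : ℝ) ≤ R * (2 * Real.pi / η + 1)) ∧
        ∀ t ∈ W, D N v (fun _ => 1) (t : ℝ) = N + 1) := by
  have hD : ∀ (N : ℕ) (v : Fin (N + 1) → ℝ) (b : Fin (N + 1) → ℂ) (t : ℝ),
      D N v b t = Pool.Agent.E8helper19.RP.DD N v b t := by
    intro N v b t
    unfold D Pool.Agent.E8helper19.RP.DD
    apply sum_congr rfl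
    intro n _
    congr 2
    push_cast
    ring
  refine ⟨?_, ?_, ?_⟩
  · obtain ⟨C0, hC0⟩ : ∃ C0 : ℝ, C0 = 9000 * 4000 ^ 3 := ⟨_, rfl⟩
    have hC01 : 1 ≤ C0 := by rw [hC0]; norm_num
    refine ⟨800000 * C0, by linarith, ?_⟩
    intro N T δ η hN hT hδ hδ1 hη hη1
    obtain ⟨E, hE, hE1, hE2⟩ := Pool.Agent.E8helper19.RP.bas N T hN hT δ hδ hδ1 η hη hη1
    refine ⟨E, hE, hE1, ?_⟩
    intro v hv hvE W b hW
    have hbas := hE2 v hv hvE
    rw [← hC0] at hbas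
    obtain ⟨_, _, _, _, p5, p6⟩ := Pool.Agent.E8helper19.RP.par N T hN hT δ hδ hδ1
    have hLL : Pool.Agent.E8helper19.RP.LL N T δ = 1 + Real.log (N * T / δ) := rfl
    rw [hLL] at hbas p5 p6
    have hN1 : (1 : ℝ) ≤ N := by exact_mod_cast hN
    obtain ⟨L, hL⟩ : ∃ L : ℝ, L = 1 + Real.log (N * T / δ) := ⟨_, rfl⟩
    rw [← hL] at hbas p5 p6 ⊢
    have hL1 : 1 ≤ L := by linarith [Real.log_nonneg hN1]
    obtain ⟨G, hG⟩ : ∃ G, G = ∑ n, ‖b n‖ ^ 2 := ⟨_, rfl⟩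
    have hG0 : 0 ≤ G := by rw [hG]; exact sum_nonneg fun _ _ => sq_nonneg _
    have hw0 : (0 : ℝ) ≤ W.card := Nat.cast_nonneg _
    refine ⟨?_, ?_⟩
    · intro hηN
      have h1 := Pool.Agent.E8helper19.RP.con_sieve N T hN η C0 L hη hηN hC01 p6 v hbas W hW b
      simp only [hD]
      refine h1.trans ?_
      rw [← hG]
      have h2 : 0 ≤ C0 * L ^ 4 * (1 / η + W.card) * G := by positivity
      linarith
    · intro V hV hVW
      have hVW' : ∀ t ∈ W, V ≤ ‖Pool.Agent.E8helper19.RP.DD N v b (t : ℝ)‖ := by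
        intro t ht
        rw [← hD]
        exact hVW t ht
      have hV2 : 0 < V ^ 2 := by positivity
      refine ⟨?_, ?_, ?_⟩
      · intro hηN
        have h1 := Pool.Agent.E8helper19.RP.con_large N T hN η C0 L hη hηN (by linarith) hL1 v hbas
          W hW b V hV.le hVW'
        rw [← hG] at h1 ⊢
        rcases le_or_gt (V ^ 2) (16 * C0 * L ^ 3 * G) with h2 | h2
        · left
          refine h2.trans ?_
          have h3 : 0 ≤ C0 * L ^ 3 * G := by positivity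
          linarith
        · right
          rw [le_div_iff₀ (by positivity)]
          have h3 : 8 * C0 * G * (L ^ 3 * W.card) ≤ V ^ 2 * W.card / 2 := by
            have := mul_le_mul_of_nonneg_right h2.le hw0
            linarith
          have h4 : V ^ 2 * W.card ≤ 16 * C0 * G * (L / η) := by linarith
          have h5 : (W.card : ℝ) * (η * V ^ 2) ≤ 16 * C0 * G * L := by
            calc (W.card : ℝ) * (η * V ^ 2) = η * (V ^ 2 * W.card) := by ring
              _ ≤ η * (16 * C0 * G * (L / η)) := mul_le_mul_of_nonneg_left h4 hη.le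
              _ = 16 * C0 * G * L := by field_simp
          refine h5.trans ?_
          have h6 : 0 ≤ C0 * L * G := by positivity
          linarith
      · intro hηN
        have h1 := Pool.Agent.E8helper19.RP.con_hm N T hN η C0 4000 L hη hη1 hηN (by linarith)
          (by norm_num) p5 p6 v hbas W hW b V hV.le hVW'
        rw [← hG] at h1 ⊢
        obtain ⟨r, hr⟩ : ∃ r : ℝ, r = Real.sqrt (1 / η) := ⟨_, rfl⟩
        have hr0 : 0 ≤ r := by rw [hr]; exact Real.sqrt_nonneg _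
        rw [← hr] at h1 ⊢
        rcases le_or_gt (V ^ 2) (800000 * C0 * L ^ 3 * G * r) with h2 | h2
        · left
          exact h2
        · right
          rw [le_div_iff₀ hV2]
          have h3 : 100 * 4000 * C0 * G * (L ^ 3 * r * W.card) ≤ V ^ 2 * W.card / 2 := by
            have := mul_le_mul_of_nonneg_right h2.le hw0
            linarith
          have h4 : V ^ 2 * W.card ≤ 800000 * C0 * G * (L ^ 2 * N) := by linarith
          linarith
      · intro Φ hΦ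
        have h1 := Pool.Agent.E8helper19.RP.con_struct N T hN η C0 L hη (by linarith) hL1 v hbas
          W hW b V hV.le hVW' Φ (by
            intro J a ha
            refine le_trans (le_of_eq ?_) (hΦ J a ha)
            apply sum_congr rfl
            intro m _
            congr 2
            apply sum_congr rfl
            intro t _
            congr 2
            push_cast
            ring)
        rw [← hG] at h1 ⊢
        refine h1.trans ?_
        have hS0 : 0 ≤ ∑ J ∈ W.image (fun t : ℤ => ⌊η * (t : ℝ)⌋), Φ J := by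
          apply sum_nonneg
          intro J _
          refine le_trans ?_ (hΦ J (fun _ => 0) (by intro t; simp))
          exact sum_nonneg fun _ _ => sq_nonneg _
        have h2 : 0 ≤ C0 * G * (L * ∑ J ∈ W.image (fun t : ℤ => ⌊η * (t : ℝ)⌋), Φ J +
            L ^ 3 * (W.card : ℝ) ^ 2 + N) := by positivity
        linarith
  · intro A B hA hB
    obtain ⟨C0, hC0⟩ : ∃ C0 : ℝ, C0 = 9000 * 4000 ^ 3 := ⟨_, rfl⟩
    have hC01 : 1 ≤ C0 := by rw [hC0]; norm_num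
    obtain ⟨C1, hC1⟩ : ∃ C1 : ℝ, C1 = C0 * (1 + A + B) ^ 3 := ⟨_, rfl⟩
    have hC11 : 1 ≤ C1 := by
      rw [hC1]
      exact one_le_mul_of_one_le_of_one_le hC01 (one_le_pow₀ (by linarith))
    have hq : ∀ σ ε : ℝ, ∃ C2 : ℝ, 1 / 2 < σ → 0 < ε → ∀ N : ℕ, 1 ≤ N → ∀ η : ℝ, 0 < η →
        η ≤ 1 / (3 * N) → ∀ w : ℝ, 0 ≤ w → w ≤ 3 * (N : ℝ) ^ A →
        ((N : ℝ) ^ σ) ^ 2 * w ≤
          16 * C1 * N * ((1 + Real.log N) / η + (1 + Real.log N) ^ 3 * w) →
        w ≤ C2 * (N : ℝ) ^ (1 - 2 * σ + ε) / η := by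
      intro σ ε
      by_cases h : 1 / 2 < σ ∧ 0 < ε
      · obtain ⟨C2, _, h2⟩ := Pool.Agent.E8helper19.RP.qform A C1 σ ε hA hC11 h.1 h.2
        exact ⟨C2, fun _ _ => h2⟩
      · exact ⟨0, fun h1 h2 => absurd ⟨h1, h2⟩ h⟩
    choose C2 hC2 using hq
    refine ⟨C2, ?_⟩
    intro N η hN hη hηN
    have hN1 : (1 : ℝ) ≤ N := by exact_mod_cast hN
    have hN0 : (0 : ℝ) < N := by linarith
    have hNA : 1 ≤ (N : ℝ) ^ A := Real.one_le_rpow hN1 hA
    have hδ : 0 < (N : ℝ) ^ (-B) := Real.rpow_pos_of_pos hN0 _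
    have hδ1 : (N : ℝ) ^ (-B) ≤ 1 := Real.rpow_le_one_of_one_le_of_nonpos hN1 (by linarith)
    have hη1 : η ≤ 1 := by
      refine hηN.trans ?_
      rw [div_le_one (by positivity)]
      linarith
    set T : ℕ := ⌊(N : ℝ) ^ A⌋₊ with hTd
    have hT : 1 ≤ T := by
      rw [hTd]
      exact Nat.le_floor (by exact_mod_cast hNA)
    have hTA : (T : ℝ) ≤ (N : ℝ) ^ A := Nat.floor_le (by linarith)
    have hT1 : (1 : ℝ) ≤ T := by exact_mod_cast hT
    obtain ⟨E, hE, hE1, hE2⟩ := Pool.Agent.E8helper19.RP.bas N T hN hT _ hδ hδ1 η hη hη1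
    refine ⟨E, hE, hE1, ?_⟩
    intro v hv hvE W b σ ε hσ hε hb hW hVW
    have hbas := hE2 v hv hvE
    rw [← hC0] at hbas
    have hWT : ∀ t ∈ W, |t| ≤ T := by
      intro t ht
      have h1 := hW t ht
      have h2 : ((t.natAbs : ℕ) : ℝ) ≤ (N : ℝ) ^ A := by
        rw [Nat.cast_natAbs, Int.cast_abs]
        exact h1
      have h3 : t.natAbs ≤ T := Nat.le_floor h2
      rw [Int.abs_eq_natAbs]
      exact_mod_cast h3
    obtain ⟨_, _, _, _, _, p6⟩ := Pool.Agent.E8helper19.RP.par N T hN hT _ hδ hδ1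
    have hl : 0 ≤ Real.log N := Real.log_nonneg hN1
    have hL1 : 1 ≤ Pool.Agent.E8helper19.RP.LL N T ((N : ℝ) ^ (-B)) := by linarith
    have h1 := Pool.Agent.E8helper19.RP.con_large N T hN η C0 _ hη hηN (by linarith) hL1 v hbas
      W hWT b ((N : ℝ) ^ σ) (by positivity) (fun t ht => by rw [← hD]; exact (hVW t ht).le)
    obtain ⟨L, hL⟩ : ∃ L, L = Pool.Agent.E8helper19.RP.LL N T ((N : ℝ) ^ (-B)) := ⟨_, rfl⟩
    rw [← hL] at h1 hL1
    have hLle : L ≤ (1 + A + B) * (1 + Real.log N) := by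
      rw [hL]
      unfold Pool.Agent.E8helper19.RP.LL
      rw [Real.log_div (by positivity) hδ.ne', Real.log_mul (by positivity) (by positivity),
        Real.log_rpow hN0]
      have h2 : Real.log T ≤ A * Real.log N := by
        rw [← Real.log_rpow hN0]
        exact Real.log_le_log (by linarith) hTA
      nlinarith
    have hG2 : ∑ n, ‖b n‖ ^ 2 ≤ 2 * N := by
      calc ∑ n, ‖b n‖ ^ 2 ≤ ∑ n : Fin (N + 1), (1 : ℝ) :=
            sum_le_sum fun n _ => pow_le_one₀ (norm_nonneg _) (hb n)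
        _ = N + 1 := by simp
        _ ≤ 2 * N := by linarith
    have hw0 : (0 : ℝ) ≤ W.card := Nat.cast_nonneg _
    have hcard : (W.card : ℝ) ≤ 3 * (N : ℝ) ^ A := by
      have h2 := Pool.Agent.E8helper19.RP.idx_card T W hWT
      have h3 := card_le_univ (Pool.Agent.E8helper19.RP.idx T W)
      rw [Fintype.card_fin, h2] at h3
      have h4 : (W.card : ℝ) ≤ ((2 * T + 1 : ℕ) : ℝ) := by exact_mod_cast h3
      push_cast at h4
      linarith
    apply hC2 σ ε hσ hε N hN η hη hηN W.card hw0 hcard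
    refine h1.trans ?_
    obtain ⟨ℓ, hℓ⟩ : ∃ ℓ, ℓ = 1 + Real.log N := ⟨_, rfl⟩
    rw [← hℓ] at hLle ⊢
    have hℓ1 : 1 ≤ ℓ := by rw [hℓ]; linarith
    have hAB : 1 ≤ 1 + A + B := by linarith
    have h2 : L / η + L ^ 3 * (W.card : ℝ) ≤ (1 + A + B) ^ 3 * (ℓ / η + ℓ ^ 3 * W.card) := by
      have h3 : L ^ 3 ≤ ((1 + A + B) * ℓ) ^ 3 := pow_le_pow_left₀ (by linarith) hLle 3
      have h4 : L ≤ (1 + A + B) ^ 3 * ℓ := by
        refine hLle.trans (mul_le_mul_of_nonneg_right ?_ (by linarith))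
        calc 1 + A + B = (1 + A + B) ^ 1 := (pow_one _).symm
          _ ≤ (1 + A + B) ^ 3 := pow_le_pow_right₀ hAB (by norm_num)
      have h5 := div_le_div_of_nonneg_right h4 hη.le
      have h6 := mul_le_mul_of_nonneg_right h3 hw0
      rw [mul_pow] at h6
      have e : (1 + A + B) ^ 3 * (ℓ / η + ℓ ^ 3 * W.card) =
          (1 + A + B) ^ 3 * ℓ / η + (1 + A + B) ^ 3 * ℓ ^ 3 * W.card := by ring
      rw [e]
      linarith
    have h3 : 0 ≤ ∑ n, ‖b n‖ ^ 2 := sum_nonneg fun _ _ => sq_nonneg _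
    calc 8 * C0 * (∑ n, ‖b n‖ ^ 2) * (L / η + L ^ 3 * (W.card : ℝ))
        ≤ 8 * C0 * (2 * N) * ((1 + A + B) ^ 3 * (ℓ / η + ℓ ^ 3 * W.card)) := by
          apply mul_le_mul _ h2 (by positivity) (by positivity)
          exact mul_le_mul_of_nonneg_left hG2 (by linarith)
      _ = _ := by rw [hC1]; ring
  · intro N η hη
    obtain ⟨v, hv, h⟩ := Pool.Agent.E8helper19.RP.neg' N η hη
    refine ⟨v, hv, fun R => ?_⟩
    obtain ⟨W, h1, h2, h3⟩ := h R
    exact ⟨W, h1, h2, fun t ht => by rw [hD]; exact h3 t ht⟩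

end Pool.Agent.Results.MP_ecd12e_nt.RandomPerturbationsH19
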