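import Pool.Agent.E8helper70.Mlv.Eqv

/-! Montgomery's large value conjecture is equivalent to a weighted large sieve inequality, the
weight depending on the set of points, and to the same conjecture for coefficients `±1`. -/

open Finset

namespace Pool.Agent.Results.MP_ecd12e_nt.WeightedLargeSieveH70

/-- `n^{it}` -/
noncomputable def nt (t : ℤ) (n : ℕ) : ℂ :=
  Complex.exp ((((t : ℝ) * Real.log (n : ℝ) : ℝ) : ℂ) * Complex.I)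

/-- the Dirichlet polynomial `D(t) = ∑_{N ≤ n ≤ 2N} b_n n^{it}` -/
noncomputable def D (N : ℕ) (b : ℕ → ℂ) (t : ℤ) : ℂ := ∑ n ∈ Icc N (2 * N), b n * nt t n

/-- the large value conjecture (Q1) for coefficient sequences of the class `Cl` -/
def LargeValues (Cl : Set (ℕ → ℂ)) : Prop := ∀ A σ : ℝ, 1 / 2 < σ → ∀ ε : ℝ, 0 < ε → ∃ C : ℝ,
  ∀ N : ℕ, 1 ≤ N → ∀ T : ℝ, (N : ℝ) ≤ T → T ≤ (N : ℝ) ^ A → ∀ b ∈ Cl, ∀ W : Finset ℤ,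
    (∀ t ∈ W, 0 ≤ (t : ℝ) ∧ (t : ℝ) ≤ T ∧ (N : ℝ) ^ σ < ‖D N b t‖) →
      (W.card : ℝ) ≤ C * (N : ℝ) ^ (2 - 2 * σ + ε)

/-- for every `A` and `ε > 0` there is `C` such that `P ε C N W` holds for all `N ≥ 1` and all sets
`W` of at most `N` integers of `[0, N^A]` -/
def ForAllSets (P : ℝ → ℝ → ℕ → Finset ℤ → Prop) : Prop := ∀ A ε : ℝ, 0 < ε → ∃ C : ℝ,
  ∀ N : ℕ, 1 ≤ N → ∀ W : Finset ℤ, W.card ≤ N → (∀ t ∈ W, 0 ≤ (t : ℝ) ∧ (t : ℝ) ≤ (N : ℝ) ^ A) →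
    P ε C N W

/-- there is a positive weight `w` (which may depend on `W`) of total mass at most `C N^{1+ε}` on
`[N, 2N]` with `∑_{t ∈ W} |D(t)|² ≤ N ∑_n w_n |b_n|²` for all complex `b` -/
def Weighted (ε C : ℝ) (N : ℕ) (W : Finset ℤ) : Prop := ∃ w : ℕ → ℝ, (∀ n, 0 < w n) ∧
  ∑ n ∈ Icc N (2 * N), w n ≤ C * (N : ℝ) ^ (1 + ε) ∧
  ∀ b : ℕ → ℂ, ∑ t ∈ W, ‖D N b t‖ ^ 2 ≤ N * ∑ n ∈ Icc N (2 * N), w n * ‖b n‖ ^ 2

/-- the dual form: `∑_n |∑_{t ∈ W} c_t n^{it}|² / w_n ≤ N ∑_t |c_t|²` for all complex `c` -/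
def DualWeighted (ε C : ℝ) (N : ℕ) (W : Finset ℤ) : Prop := ∃ w : ℕ → ℝ, (∀ n, 0 < w n) ∧
  ∑ n ∈ Icc N (2 * N), w n ≤ C * (N : ℝ) ^ (1 + ε) ∧
  ∀ c : ℤ → ℂ, ∑ n ∈ Icc N (2 * N), ‖∑ t ∈ W, c t * nt t n‖ ^ 2 / w n ≤ N * ∑ t ∈ W, ‖c t‖ ^ 2

/-- `∑_n |∑_{t ∈ W} c_t n^{it}| ≤ C N^{1+ε} |W|^{1/2}` whenever all `|c_t| ≤ 1` -/
def MeanModulus (ε C : ℝ) (N : ℕ) (W : Finset ℤ) : Prop := ∀ c : ℤ → ℂ, (∀ t, ‖c t‖ ≤ 1) →
  ∑ n ∈ Icc N (2 * N), ‖∑ t ∈ W, c t * nt t n‖ ≤ C * (N : ℝ) ^ (1 + ε) * √(W.card : ℝ)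

/-- The large value conjecture, the large value conjecture for coefficients `±1`, the weighted
large sieve inequality, its dual, and the mean modulus bound are equivalent. -/
theorem result : [LargeValues {b | ∀ n, ‖b n‖ ≤ 1}, LargeValues {b | ∀ n, b n = 1 ∨ b n = -1},
    ForAllSets Weighted, ForAllSets DualWeighted, ForAllSets MeanModulus].TFAE := by
  have h := E8helper70.Mlv.tfae
  have h12 : LargeValues {b | ∀ n, ‖b n‖ ≤ 1} ↔ LargeValues {b | ∀ n, b n = 1 ∨ b n = -1} :=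
    h.out 0 1
  have h13 : LargeValues {b | ∀ n, ‖b n‖ ≤ 1} ↔ ForAllSets Weighted := h.out 0 4
  have h14 : LargeValues {b | ∀ n, ‖b n‖ ≤ 1} ↔ ForAllSets DualWeighted := h.out 0 5
  have h15 : LargeValues {b | ∀ n, ‖b n‖ ≤ 1} ↔ ForAllSets MeanModulus := h.out 0 6
  tfae_have 1 ↔ 2 := h12
  tfae_have 1 ↔ 3 := h13
  tfae_have 1 ↔ 4 := h14
  tfae_have 1 ↔ 5 := h15
  tfae_finish

end Pool.Agent.Results.MP_ecd12e_nt.WeightedLargeSieveH70
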